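import Pool.Agent.H83.V.FV
import Pool.Agent.H67.LF.SYX

/-!
Theorem V (MP_34b97f_an / MP_c59857_nt), board lvv_modules: module VSX, the measure on the
side of the numbers.
-/

set_option autoImplicit false

open MeasureTheory ProbabilityTheory Filter Topology Finset
open scoped Nat ENNReal

namespace Pool.Agent.H35.V

open Pool.Agent.H83.V
open Pool.Agent.H28.MCL (ldB Aw)
open Pool.Agent.H67.AG (Av)
open Pool.Agent.H67.LF (ptX_nat ptX_zero fai_mono)
open Pool.Agent.H28.LF (lt SS ptS LX Xi shX lX shS SysX T_SHP mm thX wX)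

/-- the finite data of a point on which the error depends -/
def fd (m : ℕ) (ξ : Xi) : (Fin m → Bool × Bool) × (Fin (3 ^ m) → Bool) :=
  (fun i => (ξ ((i : ℤ) + 1)).1, fun s => (ξ 0).2 (s : ℕ))

/-- extension of finitely many digits by zeros -/
def xt (m : ℕ) (b : Fin (3 ^ m) → Bool) (s : ℕ) : Bool := if h : s < 3 ^ m then b ⟨s, h⟩ else false

open Classical in
/-- the error in terms of the finite data -/
noncomputable def ef (z : Bool) {m : ℕ} (I : Finset (Fin m))
    (d : (Fin m → Bool × Bool) × (Fin (3 ^ m) → Bool)) : ℝ :=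
  if (fun i : Fin m => vl z (d.1 i)) ∈ Gd I (xt m d.2) then 0 else 1

theorem cont_fd (m : ℕ) : Continuous (fd m) := by
  unfold fd
  fun_prop

theorem eX_eq (hG : T_GDL) (z : Bool) {m : ℕ} (I : Finset (Fin m)) (ξ : Xi) :
    eX z I ξ = ef z I (fd m ξ) := by
  have h : Gd I (ξ 0).2 = Gd I (xt m (fd m ξ).2) := by
    apply (hG m I).2.2.2
    intro s hs
    unfold xt
    rw [dif_pos hs]
    rfl
  unfold eX ef
  rw [h]
  rfl

theorem cont_eX (hG : T_GDL) (z : Bool) {m : ℕ} (I : Finset (Fin m)) : Continuous (eX z I) := by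
  have h1 : eX z I = ef z I ∘ fd m := funext fun ξ => eX_eq hG z I ξ
  rw [h1]
  exact (continuous_of_discreteTopology).comp (cont_fd m)

theorem shX_iter (l : ℕ) (ξ : Xi) (t : ℤ) : (shX^[l] ξ) t = ξ (t + l) := by
  induction l generalizing t with
  | zero => simp
  | succ l ih =>
    rw [Function.iterate_succ_apply']
    show (shX^[l] ξ) (t + 1) = _
    rw [ih]
    congr 1
    push_cast
    ring

theorem cont_shX_iter (l : ℕ) : Continuous (shX^[l]) := by
  have h1 : Continuous (shX : Xi → Xi) := (shS LX).continuous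
  exact h1.iterate l

theorem cont_Av (hG : T_GDL) (z : Bool) {m : ℕ} (I : Finset (Fin m)) (K : ℕ) :
    Continuous (Av shX 1 K (eX z I)) := by
  unfold Av
  refine Continuous.div_const ?_ _
  refine continuous_finsetSum _ fun l _ => ?_
  exact (cont_eX hG z I).comp (cont_shX_iter _)

theorem eX_pt (z : Bool) {m : ℕ} (I : Finset (Fin m)) (τ : ℕ → ℕ → Bool) (n l : ℕ) :
    eX z I (shX^[l] (ptS (lX τ) n)) = eN z I τ (n + l) := by
  have h0 : ((shX^[l] (ptS (lX τ) n)) 0).2 = τ (n + l) := by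
    rw [shX_iter, zero_add, ptX_nat]
  have h1 : (fun i : Fin m => vl z ((shX^[l] (ptS (lX τ) n)) ((i : ℤ) + 1)).1) =
      pat z m (n + l) := by
    funext i
    unfold pat
    rw [shX_iter]
    have e : ((i : ℤ) + 1 + l) = ((l + (i : ℕ) + 1 : ℕ) : ℤ) := by push_cast; ring
    rw [e, ptX_nat]
    show vl z (lt (n + (l + (i : ℕ) + 1))) = _
    have e2 : n + (l + (i : ℕ) + 1) = n + l + (i : ℕ) + 1 := by ring
    rw [e2]
  unfold eX eN
  rw [h0, h1]

theorem Av_pt (z : Bool) {m : ℕ} (I : Finset (Fin m)) (τ : ℕ → ℕ → Bool) (K n : ℕ) :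
    Av shX 1 K (eX z I) (ptS (lX τ) n) = aN z I τ K n := by
  unfold Av aN
  congr 1
  refine Finset.sum_congr rfl fun k _ => ?_
  rw [one_mul, eX_pt]

theorem pf_VSX (hS : T_SHP) (hG : T_GDL) (hL : Pool.Agent.H28.MCL.T_LDB) : T_VSX := by
  intro z m I ρ η U x y τ hA hτ hbig
  have hμ := (hL U x y hA).1
  obtain ⟨P, hP, hinv, hclo, hcls⟩ := hS LX (ldB U x y) (lX τ) hμ
  refine ⟨P, ⟨hP, hinv, ?_, ?_⟩, hclo, ?_⟩
  · have key : ∀ s : ℕ, P {ξ : Xi | (ξ 0).2 s ≠ (ξ 1).2 s} = 0 := by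
      intro s
      have hc : IsClopen {ξ : Xi | (ξ 0).2 s ≠ (ξ 1).2 s} := by
        have h0 : Continuous fun ξ : Xi => ((ξ 0).2 s, (ξ 1).2 s) := by fun_prop
        have h1 : IsClopen {z : Bool × Bool | z.1 ≠ z.2} := isClopen_discrete _
        exact h1.preimage h0
      have h2 := hclo _ hc
      have h3 : {n | ptS (lX τ) n ∈ {ξ : Xi | (ξ 0).2 s ≠ (ξ 1).2 s}} ⊆
          {n | τ n ≠ τ (n + 1)} := by
        intro n hn e
        apply hn
        have e1 : (ptS (lX τ) n 0).2 = τ n := by rw [ptX_zero]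
        have e2 : (ptS (lX τ) n 1).2 = τ (n + 1) := by
          have := ptX_nat τ n 1
          rw [Nat.cast_one] at this
          rw [this]
        rw [e1, e2, e]
      have h4 := fai_mono hμ h3
      rw [hτ] at h4
      have h5 : P.real {ξ : Xi | (ξ 0).2 s ≠ (ξ 1).2 s} = 0 := by
        refine le_antisymm ?_ measureReal_nonneg
        rw [h2]; exact h4
      exact (measureReal_eq_zero_iff (measure_ne_top _ _)).1 h5
    have h6 : ∀ᵐ ξ ∂P, ∀ s : ℕ, ¬ (ξ 0).2 s ≠ (ξ 1).2 s := by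
      rw [ae_all_iff]
      intro s
      exact measure_eq_zero_iff_ae_notMem.1 (key s)
    filter_upwards [h6] with ξ hξ
    funext s
    exact not_not.1 (hξ s)
  · intro K _
    exact measureReal_nonneg
  · intro K hK
    have hc : IsClosed {ξ : Xi | Av shX 1 K (eX z I) ξ ≤ η} :=
      isClosed_le (cont_Av hG z I K) continuous_const
    refine le_trans ?_ (hcls _ hc)
    have h2 : {n | ptS (lX τ) n ∈ {ξ : Xi | Av shX 1 K (eX z I) ξ ≤ η}} =
        {n | aN z I τ K n ≤ η} := by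
      ext n
      show Av shX 1 K (eX z I) (ptS (lX τ) n) ≤ η ↔ _
      rw [Av_pt]
      rfl
    rw [h2]
    exact hbig K hK

end Pool.Agent.H35.V
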