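import Pool.Agent.H83.V.T1

/-!
Theorem V (`MP_34b97f_an`, `MP_c59857_nt`), row GAP: the frequency of the mismatches of two points
is not in the gap.
-/

set_option autoImplicit false

open MeasureTheory ProbabilityTheory Filter Topology Finset
open scoped Nat ENNReal

namespace Pool.Agent.H35.V

open Pool.Agent.H67.AG (avgP ul Inv TT Fac)
open Pool.Agent.H28.LF (La Cd dm ds)
open Pool.Agent.H83.V

theorem gap_dm_nonneg {Ω : Type} {q : ℕ} (a a' : Ω → Fin q) (ω : Ω) : 0 ≤ dm a a' ω := by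
  unfold dm
  split_ifs <;> norm_num

theorem gap_dm_le {Ω : Type} {q : ℕ} (a a' : Ω → Fin q) (ω : Ω) : dm a a' ω ≤ 1 := by
  unfold dm
  split_ifs <;> norm_num

theorem gap_dm_meas {Ω : Type} [MeasurableSpace Ω] {q : ℕ} {a a' : Ω → Fin q} (ha : Measurable a)
    (ha' : Measurable a') : Measurable (dm a a') := by
  unfold dm
  exact Measurable.ite (measurableSet_eq_fun ha ha') measurable_const measurable_const

theorem pf_GAP (hP : T_PGV) (hC : Pool.Agent.H28.LF.T_CND) (hF : Pool.Agent.H28.LF.T_LAF)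
    (hL : Pool.Agent.H28.LF.T_LAB) (hM : T_MB) (hN : T_NUM) : T_GAP := by
  intro c Ω _ P _ T g g' mp hg hg'
  have hmb := (hM c).2.2.2.2 Ω P T g g' mp hg hg'
  set a : Ω → Fin c.q := fun ω => c.a (g ω) with ha
  set a' : Ω → Fin c.q := fun ω => c.a (g' ω) with ha'
  have ham : Measurable a := c.am.comp hg.1.measurable
  have ham' : Measurable a' := c.am.comp hg'.1.measurable
  set f : Ω → ℝ := dm a a' with hf
  have hfm : Measurable f := gap_dm_meas ham ham'
  set E : Ω → ℝ := P[f | Inv T 1] with hE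
  have hEm : Measurable[Inv T 1] E := stronglyMeasurable_condExp.measurable
  set A : Set Ω := {ω | c.ulo < E ω ∧ E ω ≤ c.uh} with hA
  have hAm : MeasurableSet[Inv T 1] A := by
    have h1 : MeasurableSet[Inv T 1] {ω | c.ulo < E ω} :=
      hEm (measurableSet_Ioi : MeasurableSet (Set.Ioi c.ulo))
    have h2 : MeasurableSet[Inv T 1] {ω | E ω ≤ c.uh} :=
      hEm (measurableSet_Iic : MeasurableSet (Set.Iic c.uh))
    exact @MeasurableSet.inter _ (Inv T 1) _ _ h1 h2
  have hle : Inv T 1 ≤ (inferInstance : MeasurableSpace Ω) := MeasurableSpace.invariants_le _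
  have hAm' : MeasurableSet A := hle _ hAm
  rcases eq_or_ne (P.real A) 0 with h0 | h0
  · -- the set has measure zero
    have h1 : P A = 0 := by
      rw [Measure.real, ENNReal.toReal_eq_zero_iff] at h0
      exact h0.resolve_right (measure_ne_top _ _)
    have h2 : ∀ᵐ ω ∂P, ω ∉ A := measure_eq_zero_iff_ae_notMem.1 h1
    filter_upwards [h2, hmb] with ω h3 h4
    rw [← h4]
    exact h3
  · exfalso
    have hpos : 0 < P.real A := lt_of_le_of_ne measureReal_nonneg (Ne.symm h0)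
    obtain ⟨hpr, mp', hce, hfac⟩ := hC Ω c.X P T A mp hAm hpos
    have hg1 : Fac (P[|A]) T c.μ c.T g := hfac c.μ c.T g c.erg hg
    have hg1' : Fac (P[|A]) T c.μ c.T g' := hfac c.μ c.T g' c.erg hg'
    have e1 : La c.U c.s (P[|A]) T a c.Bad Set.univ = La c.U c.s c.μ c.T c.a c.Bad Set.univ :=
      hF Ω c.X (P[|A]) c.μ T c.T g c.U c.s c.q c.m c.Bad c.a hg1 c.am
    have e2 : La c.U c.s (P[|A]) T a' c.Bad Set.univ = La c.U c.s c.μ c.T c.a c.Bad Set.univ :=
      hF Ω c.X (P[|A]) c.μ T c.T g' c.U c.s c.q c.m c.Bad c.a hg1' c.am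
    have hbd : ∃ C, ∀ ω, |f ω| ≤ C := ⟨1, fun ω => abs_le.2
      ⟨by linarith [gap_dm_nonneg a a' ω], gap_dm_le a a' ω⟩⟩
    have hce1 := hce f hfm hbd
    have hinA : ∀ᵐ ω ∂(P[|A]), ω ∈ A := ae_cond_mem hAm'
    have hpgv := hP Ω (P[|A]) T c.U c.s c.γ c.q c.m c.I c.Bad a a' Set.univ mp' c.hU c.sv c.γ0
      c.hγ c.m0 c.code ham ham' (@MeasurableSet.univ _ (Inv T 1)) (by
        filter_upwards [hce1, hinA] with ω h1 h2 _
        rw [h1]
        exact h2.2)
    rw [e1, e2, setIntegral_univ] at hpgv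
    have hlow : c.ulo ≤ ∫ ω, f ω ∂(P[|A]) := by
      have h1 : ∫ ω, ((P[|A])[f | Inv T 1]) ω ∂(P[|A]) = ∫ ω, f ω ∂(P[|A]) := integral_condExp hle
      rw [← h1]
      have h2 : ∫ _ω, c.ulo ∂(P[|A]) ≤ ∫ ω, ((P[|A])[f | Inv T 1]) ω ∂(P[|A]) := by
        apply integral_mono_ae (integrable_const _) integrable_condExp
        filter_upwards [hce1, hinA] with ω h3 h4
        rw [h3]
        exact h4.1.le
      rw [integral_const, probReal_univ, one_smul] at h2
      exact h2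
    -- numbers
    have hrel := c.rel
    have hγ := c.γ0
    have hm : (0 : ℝ) < c.m := by exact_mod_cast c.m0
    have hI : (c.m : ℝ) ≤ 2 * (c.I.card : ℝ) := by exact_mod_cast c.hI
    have hu0 := (hN c).2.1
    have hum : c.γ * (c.m : ℝ) * c.ulo = 8 * (c.γ ^ 4 / 10 ^ 9) := by
      unfold Vx.ulo
      field_simp
    have h5 : 7 / 8 * c.γ * (c.I.card : ℝ) * c.ulo ≤
        7 / 8 * c.γ * (c.I.card : ℝ) * ∫ ω, dm a a' ω ∂(P[|A]) := by
      apply mul_le_mul_of_nonneg_left hlow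
      positivity
    have h6 : 7 / 8 * c.γ * ((c.m : ℝ) / 2) * c.ulo ≤ 7 / 8 * c.γ * (c.I.card : ℝ) * c.ulo := by
      apply mul_le_mul_of_nonneg_right _ hu0.le
      apply mul_le_mul_of_nonneg_left _ (by positivity)
      linarith
    have h7 : 7 / 8 * c.γ * ((c.m : ℝ) / 2) * c.ulo = 7 / 2 * (c.γ ^ 4 / 10 ^ 9) := by
      have : 7 / 8 * c.γ * ((c.m : ℝ) / 2) * c.ulo = 7 / 16 * (c.γ * (c.m : ℝ) * c.ulo) := by ring
      rw [this, hum]
      ring
    have h8 : 0 < c.γ ^ 4 / 10 ^ 9 := by positivity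
    linarith

end Pool.Agent.H35.V
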